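import Pool.Agent.helper66.LE.Defs3
import Pool.Agent.helper73.LE.TK
import Pool.Agent.helper31.LE.C5

/-! # MP_d04c2c_pr, part C, module C6: the square-root trick -/

open Finset Classical MeasureTheory Filter Topology

namespace Pool.Agent.helper66.LE

section C6
variable {q : ℝ}

theorem C6_two {ι : Type*} (h0 : 0 ≤ q) (h1 : q ≤ 1) (E : Finset ι) {A B : Finset ι → Prop}
    (hA : Inc A) (hB : Inc B) :
    Pr q E (fun F => ¬ A F) * Pr q E (fun F => ¬ B F) ≤ Pr q E (fun F => ¬ A F ∧ ¬ B F) := by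
  have h2 := harris_inc h0 h1 E hA hB
  have h3 : Pr q E (fun F => ¬ A F ∧ ¬ B F) = 1 - Pr q E A - Pr q E B + Pr q E (fun F => A F ∧ B F) := by
    have e1 : Pr q E (fun F => ¬ A F ∧ ¬ B F) = Ex q E (fun F => ((fun _ => (1 : ℝ)) F -
        (if A F then (1 : ℝ) else 0) - (if B F then (1 : ℝ) else 0)) +
        (if A F ∧ B F then (1 : ℝ) else 0)) := by
      unfold Pr
      apply Ex_congr
      intro F _
      by_cases hA : A F <;> by_cases hB : B F <;> simp [hA, hB]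
    have e2 : Ex q E (fun F => if A F ∧ B F then (1 : ℝ) else 0) = Pr q E (fun F => A F ∧ B F) := by
      unfold Pr
      apply Ex_congr
      intro F _
      by_cases hA : A F <;> by_cases hB : B F <;> simp [hA, hB]
    rw [e1, Ex_add, Ex_sub, Ex_sub, Ex_const, e2]
    rfl
  rw [h3, Pr_not, Pr_not]
  nlinarith

/-- Harris for finitely many decreasing events. -/
theorem harris_prod {ι α : Type*} (h0 : 0 ≤ q) (h1 : q ≤ 1) (E : Finset ι) (I : Finset α)
    (A : α → Finset ι → Prop) (hA : ∀ a, Inc (A a)) :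
    ∏ a ∈ I, Pr q E (fun F => ¬ A a F) ≤ Pr q E (fun F => ∀ a ∈ I, ¬ A a F) := by
  induction I using Finset.induction_on with
  | empty =>
    rw [Finset.prod_empty, Pr_true q E (by simp)]
  | insert a I ha ih =>
    rw [Finset.prod_insert ha]
    have hB : Inc (fun F => ∃ b ∈ I, A b F) := by
      rintro F F' hF ⟨b, hb, h⟩
      exact ⟨b, hb, hA b F F' hF h⟩
    calc Pr q E (fun F => ¬ A a F) * ∏ b ∈ I, Pr q E (fun F => ¬ A b F)
        ≤ Pr q E (fun F => ¬ A a F) * Pr q E (fun F => ∀ b ∈ I, ¬ A b F) :=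
          mul_le_mul_of_nonneg_left ih (Pr_nonneg h0 h1 _ _)
      _ = Pr q E (fun F => ¬ A a F) * Pr q E (fun F => ¬ ∃ b ∈ I, A b F) := by
          congr 1
          apply Pr_congr
          intro F _
          simp
      _ ≤ Pr q E (fun F => ¬ A a F ∧ ¬ ∃ b ∈ I, A b F) := C6_two h0 h1 E (hA a) hB
      _ = _ := by
          apply Pr_congr
          intro F _
          simp

theorem C6_sgn_sq (b : Bool) : sgn b * sgn b = 1 := by cases b <;> simp [sgn]

theorem C6_abs_sgn (b : Bool) : |sgn b| = 1 := by cases b <;> simp [sgn]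

/-- signed permutations of the coordinates. -/
def C6_phi {d : ℕ} (π : Equiv.Perm (Fin d)) (c : Fin d → ℤ) (y : Fin d → ℤ) : Fin d → ℤ :=
  fun j => c j * y (π j)

theorem C6_phi_add {d : ℕ} (π : Equiv.Perm (Fin d)) (c : Fin d → ℤ) (x y : Fin d → ℤ) :
    C6_phi π c (x + y) = C6_phi π c x + C6_phi π c y := by
  funext j
  simp only [C6_phi, Pi.add_apply]
  ring

theorem C6_mem_box {d n : ℕ} (x : Fin d → ℤ) : x ∈ box d n ↔ ∀ j, |x j| ≤ n := by
  simp only [box, Fintype.mem_piFinset, Finset.mem_Icc, abs_le]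

theorem C6_phi_box {d n : ℕ} (π : Equiv.Perm (Fin d)) {c : Fin d → ℤ} (hc : ∀ j, |c j| = 1)
    {x : Fin d → ℤ} (hx : x ∈ box d n) : C6_phi π c x ∈ box d n := by
  rw [C6_mem_box] at hx ⊢
  intro j
  simp only [C6_phi, abs_mul, hc, one_mul]
  exact hx _

theorem C6_mem_uv {d : ℕ} (s : Fin d → ℤ) :
    s ∈ uv d ℤ ↔ ∃ (i : Fin d) (b : Bool), s = Pi.single i (sgn b) := by
  simp only [uv, Finset.mem_image, Finset.mem_univ, true_and, Prod.exists, sgn]
  constructor
  · rintro ⟨i, b, rfl⟩; exact ⟨i, b, rfl⟩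
  · rintro ⟨i, b, rfl⟩; exact ⟨i, b, rfl⟩

theorem C6_phi_uv {d : ℕ} (π : Equiv.Perm (Fin d)) {c : Fin d → ℤ} (hc : ∀ j, |c j| = 1)
    {s : Fin d → ℤ} (hs : s ∈ uv d ℤ) : C6_phi π c s ∈ uv d ℤ := by
  rw [C6_mem_uv] at hs ⊢
  obtain ⟨i, b, rfl⟩ := hs
  have hc1 : c (π.symm i) = 1 ∨ c (π.symm i) = -1 := by
    have := hc (π.symm i)
    rcases abs_eq (zero_le_one) |>.1 this with h | h
    · exact Or.inl h
    · exact Or.inr h
  have key : ∀ v : ℤ, C6_phi π c (Pi.single i v) = Pi.single (π.symm i) (c (π.symm i) * v) := by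
    intro v
    funext j
    simp only [C6_phi]
    by_cases hj : j = π.symm i
    · subst hj
      simp
    · have hj' : π j ≠ i := fun h => hj (by rw [← h]; simp)
      simp [Pi.single_apply, hj, hj']
  rcases hc1 with h | h
  · refine ⟨π.symm i, b, ?_⟩
    rw [key, h, one_mul]
  · refine ⟨π.symm i, !b, ?_⟩
    rw [key, h]
    congr 1
    cases b <;> simp [sgn]

theorem C6_phi_zE {d n : ℕ} (π : Equiv.Perm (Fin d)) {c : Fin d → ℤ} (hc : ∀ j, |c j| = 1) :
    ∀ e ∈ zE d (box d n), Sym2.map (C6_phi π c) e ∈ zE d (box d n) := by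
  intro e' he'
  simp only [zE, Finset.mem_image, Finset.mem_filter, Finset.mem_product] at he' ⊢
  obtain ⟨⟨x, s⟩, ⟨⟨hx, hs⟩, hxs⟩, rfl⟩ := he'
  refine ⟨(C6_phi π c x, C6_phi π c s), ⟨⟨C6_phi_box π hc hx, C6_phi_uv π hc hs⟩, ?_⟩, ?_⟩
  · rw [← C6_phi_add]
    exact C6_phi_box π hc hxs
  · simp only [Sym2.map_mk, C6_phi_add]

/-- transport of the event through an equivalence. -/
theorem C6_transport {V : Type*} {E : Finset (Sym2 V)} (k : ℕ) (φ ψ : V → V) (h1 : ∀ x, ψ (φ x) = x)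
    (hE0 : ∀ e ∈ E, Sym2.map φ e ∈ E) (hE0' : ∀ e ∈ E, Sym2.map ψ e ∈ E)
    {A B A' B' : Set V} (hA : ∀ a ∈ A, φ a ∈ A') (hB : ∀ b ∈ B, φ b ∈ B')
    (hA' : ∀ a ∈ A', ψ a ∈ A) (hB' : ∀ b ∈ B', ψ b ∈ B) (q : ℝ) :
    Pr q E (fun F => ¬ PTS E F k A B) = Pr q E (fun F => ¬ PTS E F k A' B') := by
  have hE : E.image (Sym2.map φ) ⊆ E := Finset.image_subset_iff.2 hE0
  have hE' : E.image (Sym2.map ψ) ⊆ E := Finset.image_subset_iff.2 hE0'
  have hinj : Function.Injective φ := fun x y h => by rw [← h1 x, ← h1 y, h]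
  have hEq : E.image (Sym2.map φ) = E := by
    apply Finset.eq_of_subset_of_card_le hE
    rw [Finset.card_image_of_injective _ (Sym2.map.injective hinj)]
  have hback : ∀ F : Finset (Sym2 V), (F.image (Sym2.map φ)).image (Sym2.map ψ) = F := by
    intro F
    rw [Finset.image_image]
    have : Sym2.map ψ ∘ Sym2.map φ = id := by
      funext e
      rw [Function.comp_apply, Sym2.map_map]
      have : ψ ∘ φ = id := funext h1
      rw [this]
      simp
    rw [this, Finset.image_id]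
  have hψinj : Set.InjOn ψ {a | ∃ e ∈ E, a ∈ e} := by
    -- on the vertices of `E`, `φ` is surjective
    have hsurj : ∀ a, (∃ e ∈ E, a ∈ e) → φ (ψ a) = a := by
      rintro a ⟨e, he, ha⟩
      rw [← hEq, Finset.mem_image] at he
      obtain ⟨e', -, rfl⟩ := he
      rw [Sym2.mem_map] at ha
      obtain ⟨b, -, rfl⟩ := ha
      rw [h1]
    intro a ha b hb hab
    rw [← hsurj a ha, ← hsurj b hb, hab]
  have hEx : Pr q E (fun F => ¬ PTS E F k A' B') =
      Pr q E (fun F => ¬ PTS E (F.image (Sym2.map φ)) k A' B') := by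
    unfold Pr
    conv_lhs => rw [← hEq]
    rw [Ex_image (Sym2.map φ) (Sym2.map.injective hinj).injOn]
    rw [hEq]
  rw [hEx]
  apply Pr_congr
  intro F hF
  apply not_congr
  constructor
  · rintro ⟨a, ha, b, hb, h⟩
    exact ⟨φ a, hA a ha, φ b, hB b hb, PT_image φ (A := Set.univ) (fun _ _ _ _ => Set.mem_univ _)
      hinj.injOn hF hE h⟩
  · rintro ⟨a, ha, b, hb, h⟩
    have hF' : F.image (Sym2.map φ) ⊆ E := (Finset.image_subset_image hF).trans hE
    have := PT_image ψ (A := {a | ∃ e ∈ E, a ∈ e}) (fun e he a ha => ⟨e, he, ha⟩) hψinj hF' hE' h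
    rw [hback] at this
    exact ⟨ψ a, hA' a ha, ψ b, hB' b hb, this⟩

theorem C6_fq {d r : ℕ} (i i' : Fin d) (σ σ' : Fin d → Bool) {y : Fin d → ℤ} (hy : y ∈ fq d r i σ) :
    C6_phi (Equiv.swap i i') (fun j => sgn (σ' j) * sgn (σ (Equiv.swap i i' j))) y ∈ fq d r i' σ' := by
  obtain ⟨h1, h2⟩ := hy
  constructor
  · simp only [C6_phi, Equiv.swap_apply_right]
    rw [h1]
    have := C6_sgn_sq (σ i)
    linear_combination (sgn (σ' i') * (r : ℤ)) * this
  · intro j
    simp only [C6_phi]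
    have e1 : sgn (σ' j) * (sgn (σ' j) * sgn (σ (Equiv.swap i i' j)) * y (Equiv.swap i i' j)) =
        sgn (σ (Equiv.swap i i' j)) * y (Equiv.swap i i' j) := by
      have := C6_sgn_sq (σ' j)
      linear_combination (sgn (σ (Equiv.swap i i' j)) * y (Equiv.swap i i' j)) * this
    rw [e1]
    exact h2 _

/-- all the pieces of the boundary have the same probability. -/
theorem face_sym (d r s k : ℕ) (i i' : Fin d) (σ σ' : Fin d → Bool) :
    Pr q (zE d (box d r)) (fun F => ¬ PTS (zE d (box d r)) F k (box d s : Set (Fin d → ℤ)) (fq d r i σ)) =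
      Pr q (zE d (box d r)) (fun F => ¬ PTS (zE d (box d r)) F k (box d s : Set (Fin d → ℤ)) (fq d r i' σ')) := by
  have hc : ∀ (σ σ' : Fin d → Bool) (π : Equiv.Perm (Fin d)) j, |sgn (σ' j) * sgn (σ (π j))| = 1 := by
    intro σ σ' π j
    rw [abs_mul, C6_abs_sgn, C6_abs_sgn, one_mul]
  have h1 : ∀ x, C6_phi (Equiv.swap i' i) (fun j => sgn (σ j) * sgn (σ' (Equiv.swap i' i j)))
      (C6_phi (Equiv.swap i i') (fun j => sgn (σ' j) * sgn (σ (Equiv.swap i i' j))) x) = x := by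
    intro x
    funext j
    simp only [C6_phi]
    rw [Equiv.swap_comm i' i, Equiv.swap_apply_self]
    have h1 := C6_sgn_sq (σ j)
    have h2 := C6_sgn_sq (σ' (Equiv.swap i i' j))
    generalize sgn (σ j) = a at *
    generalize sgn (σ' (Equiv.swap i i' j)) = b at *
    generalize x j = c at *
    linear_combination (c * a * a) * h2 + c * h1
  have h2 := C6_phi_zE (n := r) (Equiv.swap i i') (hc σ σ' (Equiv.swap i i'))
  have h3 := C6_phi_zE (n := r) (Equiv.swap i' i) (hc σ' σ (Equiv.swap i' i))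
  have h4 : ∀ a ∈ (box d s : Set (Fin d → ℤ)), C6_phi (Equiv.swap i i')
      (fun j => sgn (σ' j) * sgn (σ (Equiv.swap i i' j))) a ∈ (box d s : Set (Fin d → ℤ)) := by
    intro a ha
    exact Finset.mem_coe.2 (C6_phi_box _ (hc σ σ' _) (Finset.mem_coe.1 ha))
  have h5 : ∀ a ∈ (box d s : Set (Fin d → ℤ)), C6_phi (Equiv.swap i' i)
      (fun j => sgn (σ j) * sgn (σ' (Equiv.swap i' i j))) a ∈ (box d s : Set (Fin d → ℤ)) := by
    intro a ha
    exact Finset.mem_coe.2 (C6_phi_box _ (hc σ' σ _) (Finset.mem_coe.1 ha))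
  exact C6_transport k _ _ h1 h2 h3 h4 (fun b hb => C6_fq i i' σ σ' hb) h5
    (fun b hb => C6_fq i' i σ' σ hb) q

theorem C6_inc_PTS {V : Type*} (E : Finset (Sym2 V)) (k : ℕ) (A B : Set V) :
    Inc (fun F => PTS E F k A B) := by
  rintro F F' hF ⟨a, ha, b, hb, h⟩
  exact ⟨a, ha, b, hb, inc_PT E k a b F F' hF h⟩

theorem C6_bd {d r : ℕ} {y : Fin d → ℤ} (hy : y ∈ bd d r) : ∃ i σ, y ∈ fq d r i σ := by
  obtain ⟨h1, i, hi⟩ := hy
  rw [C6_mem_box] at h1
  refine ⟨i, fun j => decide (0 ≤ y j), ?_, ?_⟩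
  · by_cases h : 0 ≤ y i
    · rw [abs_of_nonneg h] at hi
      simp [sgn, h, hi]
    · have h' : y i < 0 := not_le.1 h
      rw [abs_of_neg h'] at hi
      simp [sgn, h]
      linarith
  · intro j
    have := h1 j
    rw [abs_le] at this
    by_cases h : 0 ≤ y j
    · have hs : sgn (decide (0 ≤ y j)) = 1 := by simp [sgn, h]
      change 0 ≤ sgn (decide (0 ≤ y j)) * y j ∧ sgn (decide (0 ≤ y j)) * y j ≤ r
      rw [hs]
      constructor <;> linarith
    · have h' : y j < 0 := not_le.1 h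
      have hs : sgn (decide (0 ≤ y j)) = -1 := by simp [sgn, h]
      change 0 ≤ sgn (decide (0 ≤ y j)) * y j ∧ sgn (decide (0 ≤ y j)) * y j ≤ r
      rw [hs]
      constructor <;> linarith

theorem face_bound
    (h0 : 0 ≤ q) (h1 : q ≤ 1) (d r s k : ℕ) (i : Fin d) (σ : Fin d → Bool)
    (h : 1 / 2 ≤ Pr q (zE d (box d r))
      (fun F => PTS (zE d (box d r)) F 0 (box d s : Set (Fin d → ℤ)) (bd d r))) :
    (Pr q (zE d (box d r)) (fun F =>
      ¬ PTS (zE d (box d r)) F k (box d s : Set (Fin d → ℤ)) (fq d r i σ))) ^ (d * 2 ^ d) ≤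
        (1 / 2 : ℝ) ^ (k + 1) := by
  have e1 := cut_bk h0 h1 (zE d (box d r)) (box d s : Set (Fin d → ℤ)) (bd d r) k
  have e2 : Pr q (zE d (box d r))
      (fun F => ¬ PTS (zE d (box d r)) F 0 (box d s : Set (Fin d → ℤ)) (bd d r)) ≤ 1 / 2 := by
    rw [Pr_not]; linarith
  have e3 := harris_prod h0 h1 (zE d (box d r)) (univ : Finset (Fin d × (Fin d → Bool)))
    (fun a F => PTS (zE d (box d r)) F k (box d s : Set (Fin d → ℤ)) (fq d r a.1 a.2))
    (fun a => C6_inc_PTS _ _ _ _)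
  have e4 : ∏ a ∈ (univ : Finset (Fin d × (Fin d → Bool))), Pr q (zE d (box d r)) (fun F =>
      ¬ PTS (zE d (box d r)) F k (box d s : Set (Fin d → ℤ)) (fq d r a.1 a.2)) =
      (Pr q (zE d (box d r)) (fun F =>
      ¬ PTS (zE d (box d r)) F k (box d s : Set (Fin d → ℤ)) (fq d r i σ))) ^ (d * 2 ^ d) := by
    rw [Finset.prod_congr rfl (fun a _ => face_sym d r s k a.1 i a.2 σ), Finset.prod_const,
      Finset.card_univ]
    congr 1
    simp
  rw [← e4]
  refine e3.trans ?_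
  refine (Pr_mono h0 h1 (B := fun F => ¬ PTS (zE d (box d r)) F k (box d s : Set (Fin d → ℤ)) (bd d r)) ?_).trans
    (e1.trans (pow_le_pow_left₀ (Pr_nonneg h0 h1 _ _) e2 _))
  rintro F - hF ⟨a, ha, b, hb, hab⟩
  obtain ⟨i', σ', hb'⟩ := C6_bd hb
  exact hF (i', σ') (Finset.mem_univ _) ⟨a, ha, b, hb', hab⟩

end C6

end Pool.Agent.helper66.LE
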